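import Pool.Agent.Run7.h799.TK.PZ

/-! Piece HIT of project TK (helper608): return to slope zero. -/

set_option autoImplicit false

open MeasureTheory Set
open R109.GT

namespace Run7.h799.TK

open Run7.h608.TK

/-- survival probability of the walk -/
noncomputable def uu : ℕ → ℕ → ℝ
  | 0, k => if k = 0 then 0 else 1
  | t + 1, k => if k = 0 then 0 else (uu t (k - 1) + uu t (k + 1)) / 2

/-- survival probability between `0` and `b` -/
noncomputable def vv (b : ℕ) : ℕ → ℕ → ℝ
  | 0, k => if 0 < k ∧ k < b then 1 else 0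
  | t + 1, k => if 0 < k ∧ k < b then (vv b t (k - 1) + vv b t (k + 1)) / 2 else 0

theorem uu_bd (t k : ℕ) : 0 ≤ uu t k ∧ uu t k ≤ 1 := by
  induction t generalizing k with
  | zero =>
    unfold uu
    split_ifs <;> norm_num
  | succ t ih =>
    unfold uu
    split_ifs
    · norm_num
    · have h1 := ih (k - 1)
      have h2 := ih (k + 1)
      constructor <;> linarith [h1.1, h1.2, h2.1, h2.2]

theorem vv_nonneg (b t k : ℕ) : 0 ≤ vv b t k := by
  induction t generalizing k with
  | zero =>
    unfold vv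
    split_ifs <;> norm_num
  | succ t ih =>
    unfold vv
    split_ifs
    · have h1 := ih (k - 1)
      have h2 := ih (k + 1)
      linarith
    · norm_num

theorem vv_le_one (b t k : ℕ) : vv b t k ≤ 1 := by
  induction t generalizing k with
  | zero =>
    unfold vv
    split_ifs <;> norm_num
  | succ t ih =>
    unfold vv
    split_ifs
    · have h1 := ih (k - 1)
      have h2 := ih (k + 1)
      linarith
    · norm_num

theorem vv_mono (b t k : ℕ) : vv b (t + 1) k ≤ vv b t k := by
  induction t generalizing k with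
  | zero =>
    by_cases h : 0 < k ∧ k < b
    · have : vv b 0 k = 1 := by
        unfold vv
        rw [if_pos h]
      rw [this]
      exact vv_le_one b (0 + 1) k
    · have : vv b (0 + 1) k = 0 := by
        unfold vv
        rw [if_neg h]
      rw [this]
      exact vv_nonneg b 0 k
  | succ t ih =>
    by_cases h : 0 < k ∧ k < b
    · have e1 : vv b (t + 1 + 1) k = (vv b (t + 1) (k - 1) + vv b (t + 1) (k + 1)) / 2 := by
        rw [vv, if_pos h]
      have e2 : vv b (t + 1) k = (vv b t (k - 1) + vv b t (k + 1)) / 2 := by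
        rw [vv, if_pos h]
      rw [e1, e2]
      have h1 := ih (k - 1)
      have h2 := ih (k + 1)
      linarith
    · have : vv b (t + 1 + 1) k = 0 := by
        rw [vv, if_neg h]
      rw [this]
      exact vv_nonneg b _ k

theorem vv_anti (b k : ℕ) {s t : ℕ} (h : s ≤ t) : vv b t k ≤ vv b s k := by
  induction t, h using Nat.le_induction with
  | base => exact le_rfl
  | succ t _ ih => exact (vv_mono b t k).trans ih

theorem vv_out (b t k : ℕ) (h : ¬ (0 < k ∧ k < b)) : vv b t k = 0 := by
  cases t with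
  | zero => rw [vv, if_neg h]
  | succ t => rw [vv, if_neg h]

theorem vv_sum (b t k : ℕ) (hk : k ≤ b) :
    ∑ j ∈ Finset.range (t + 1), vv b j k ≤ (k : ℝ) * ((b : ℝ) - k) := by
  induction t generalizing k with
  | zero =>
    by_cases h : 0 < k ∧ k < b
    · rw [Finset.sum_range_one]
      have h1 := vv_le_one b 0 k
      have h2 : (1 : ℝ) ≤ k := by exact_mod_cast h.1
      have h3 : (1 : ℝ) ≤ (b : ℝ) - k := by
        have : (k : ℝ) + 1 ≤ b := by exact_mod_cast h.2
        linarith
      nlinarith
    · rw [Finset.sum_range_one, vv_out b 0 k h]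
      have h3 : (0 : ℝ) ≤ (b : ℝ) - k := by
        have : (k : ℝ) ≤ b := by exact_mod_cast hk
        linarith
      positivity
  | succ t ih =>
    by_cases h : 0 < k ∧ k < b
    · rw [Finset.sum_range_succ']
      have e1 : ∀ j ∈ Finset.range (t + 1), vv b (j + 1) k =
          (vv b j (k - 1) + vv b j (k + 1)) / 2 := by
        intro j _
        rw [vv, if_pos h]
      rw [Finset.sum_congr rfl e1, ← Finset.sum_div, Finset.sum_add_distrib]
      have h1 := ih (k - 1) (by omega)
      have h2 := ih (k + 1) (by omega)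
      have h3 := vv_le_one b 0 k
      have h4 : ((k - 1 : ℕ) : ℝ) = (k : ℝ) - 1 := by
        rw [Nat.cast_sub (by omega)]
        norm_num
      rw [h4] at h1
      push_cast at h2
      nlinarith
    · have e1 : ∀ j ∈ Finset.range (t + 1 + 1), vv b j k = 0 := fun j _ => vv_out b j k h
      rw [Finset.sum_eq_zero e1]
      have h3 : (0 : ℝ) ≤ (b : ℝ) - k := by
        have : (k : ℝ) ≤ b := by exact_mod_cast hk
        linarith
      positivity

theorem vv_bound (b t k : ℕ) (ht : 1 ≤ t) : vv b t k ≤ (k : ℝ) * b / t := by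
  have ht' : (0 : ℝ) < t := by exact_mod_cast ht
  by_cases h : 0 < k ∧ k < b
  · have h1 := vv_sum b t k h.2.le
    have h2 : ∑ j ∈ Finset.range (t + 1), vv b t k ≤ ∑ j ∈ Finset.range (t + 1), vv b j k := by
      refine Finset.sum_le_sum (fun j hj => vv_anti b k ?_)
      have := Finset.mem_range.1 hj
      omega
    rw [Finset.sum_const, Finset.card_range, nsmul_eq_mul] at h2
    push_cast at h2
    rw [le_div_iff₀ ht']
    have h3 := vv_nonneg b t k
    have h4 : (0 : ℝ) ≤ k := by positivity
    nlinarith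
  · rw [vv_out b t k h]
    positivity

theorem uu_le (b t k : ℕ) (hb : 1 ≤ b) : uu t k ≤ (k : ℝ) / b + vv b t k := by
  have hb' : (0 : ℝ) < b := by exact_mod_cast hb
  induction t generalizing k with
  | zero =>
    by_cases h0 : k = 0
    · subst h0
      rw [uu, if_pos rfl, vv_out b 0 0 (by simp)]
      simp
    · by_cases h : k < b
      · have e1 : vv b 0 k = 1 := by
          rw [vv, if_pos ⟨by omega, h⟩]
        rw [uu, if_neg h0, e1]
        have : (0 : ℝ) ≤ (k : ℝ) / b := by positivity
        linarith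
      · have h1 : (1 : ℝ) ≤ (k : ℝ) / b := by
          rw [le_div_iff₀ hb', one_mul]
          exact_mod_cast not_lt.1 h
        have h2 := vv_nonneg b 0 k
        have h3 := (uu_bd 0 k).2
        linarith
  | succ t ih =>
    by_cases h0 : k = 0
    · subst h0
      rw [uu, if_pos rfl, vv_out b (t + 1) 0 (by simp)]
      simp
    · by_cases h : k < b
      · have e1 : vv b (t + 1) k = (vv b t (k - 1) + vv b t (k + 1)) / 2 := by
          rw [vv, if_pos ⟨by omega, h⟩]
        rw [uu, if_neg h0, e1]
        have h1 := ih (k - 1)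
        have h2 := ih (k + 1)
        have h4 : ((k - 1 : ℕ) : ℝ) = (k : ℝ) - 1 := by
          rw [Nat.cast_sub (by omega)]
          norm_num
        rw [h4] at h1
        push_cast at h2
        have e2 : ((k : ℝ) - 1) / b + ((k : ℝ) + 1) / b = 2 * ((k : ℝ) / b) := by ring
        linarith
      · have h1 : (1 : ℝ) ≤ (k : ℝ) / b := by
          rw [le_div_iff₀ hb', one_mul]
          exact_mod_cast not_lt.1 h
        have h2 := vv_nonneg b (t + 1) k
        have h3 := (uu_bd (t + 1) k).2
        linarith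

theorem J_sub (n : ℕ) (j : ℤ) (x : ℝ) (hx : x ∈ J n j) :
    x ∈ J (n + 1) (2 * j) ∨ x ∈ J (n + 1) (2 * j + 1) := by
  have h1 : ⌊(2:ℝ) ^ n * x⌋ = j := hx
  have h2 := floor_div n 1 x
  rw [h1, pow_one] at h2
  show ⌊(2:ℝ) ^ (n + 1) * x⌋ = 2 * j ∨ ⌊(2:ℝ) ^ (n + 1) * x⌋ = 2 * j + 1
  omega

theorem survive (w : ℕ → ℤ → ℤ) (hw : Sgn w) (t : ℕ) : ∀ (n : ℕ) (j : ℤ),
    volume {x : ℝ | x ∈ J n j ∧ ∀ m, n ≤ m → m ≤ n + t → S w m x ≠ 0} ≤
      ENNReal.ofReal (uu t (R109.GT.slope w n j).natAbs / 2 ^ n) := by
  induction t with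
  | zero =>
    intro n j
    by_cases h0 : R109.GT.slope w n j = 0
    · have : {x : ℝ | x ∈ J n j ∧ ∀ m, n ≤ m → m ≤ n + 0 → S w m x ≠ 0} = ∅ := by
        ext x
        simp only [mem_ofPred_eq, mem_empty_iff_false, iff_false, not_and]
        intro hx hall
        apply hall n le_rfl (by omega)
        have h1 : ⌊(2:ℝ) ^ n * x⌋ = j := hx
        rw [S, h1]
        exact h0
      rw [this, measure_empty]
      exact bot_le
    · calc volume {x : ℝ | x ∈ J n j ∧ ∀ m, n ≤ m → m ≤ n + 0 → S w m x ≠ 0} ≤ volume (J n j) :=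
            measure_mono (fun x hx => hx.1)
        _ = ENNReal.ofReal (1 / 2 ^ n) := vol_J n j
        _ = _ := by
          rw [uu, if_neg (by omega)]
  | succ t ih =>
    intro n j
    by_cases h0 : R109.GT.slope w n j = 0
    · have : {x : ℝ | x ∈ J n j ∧ ∀ m, n ≤ m → m ≤ n + (t + 1) → S w m x ≠ 0} = ∅ := by
        ext x
        simp only [mem_ofPred_eq, mem_empty_iff_false, iff_false, not_and]
        intro hx hall
        apply hall n le_rfl (by omega)
        have h1 : ⌊(2:ℝ) ^ n * x⌋ = j := hx
        rw [S, h1]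
        exact h0
      rw [this, measure_empty]
      exact bot_le
    · have hsub : {x : ℝ | x ∈ J n j ∧ ∀ m, n ≤ m → m ≤ n + (t + 1) → S w m x ≠ 0} ⊆
          {x : ℝ | x ∈ J (n + 1) (2 * j) ∧ ∀ m, n + 1 ≤ m → m ≤ n + 1 + t → S w m x ≠ 0} ∪
          {x : ℝ | x ∈ J (n + 1) (2 * j + 1) ∧ ∀ m, n + 1 ≤ m → m ≤ n + 1 + t → S w m x ≠ 0} := by
        rintro x ⟨hx, hall⟩
        rcases J_sub n j x hx with h | h
        · exact Or.inl ⟨h, fun m h1 h2 => hall m (by omega) (by omega)⟩
        · exact Or.inr ⟨h, fun m h1 h2 => hall m (by omega) (by omega)⟩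
      refine (measure_mono hsub).trans ((measure_union_le _ _).trans ?_)
      refine (add_le_add (ih (n + 1) (2 * j)) (ih (n + 1) (2 * j + 1))).trans ?_
      rw [← ENNReal.ofReal_add (div_nonneg (uu_bd _ _).1 (by positivity))
        (div_nonneg (uu_bd _ _).1 (by positivity))]
      refine ENNReal.ofReal_le_ofReal (le_of_eq ?_)
      rw [slope_even, slope_odd, uu, if_neg (by omega)]
      set k := R109.GT.slope w n j with hk
      have hcase : ((k + w n j).natAbs = k.natAbs - 1 ∧ (k - w n j).natAbs = k.natAbs + 1) ∨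
          ((k + w n j).natAbs = k.natAbs + 1 ∧ (k - w n j).natAbs = k.natAbs - 1) := by
        rcases hw n j with h | h <;> rw [h] <;> omega
      rcases hcase with ⟨h1, h2⟩ | ⟨h1, h2⟩
      · rw [h1, h2, pow_succ]
        field_simp
      · rw [h1, h2, pow_succ]
        field_simp
        ring

theorem t_HIT : S_HIT := by
  intro w hw N T b i hT hb
  refine (survive w hw T N i).trans (ENNReal.ofReal_le_ofReal ?_)
  refine div_le_div_of_nonneg_right ?_ (by positivity)
  have h1 := uu_le b T (R109.GT.slope w N i).natAbs hb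
  have h2 := vv_bound b T (R109.GT.slope w N i).natAbs hT
  have h3 : (((R109.GT.slope w N i).natAbs : ℕ) : ℝ) = |((R109.GT.slope w N i : ℤ) : ℝ)| := by
    rw [← Int.cast_abs, Int.abs_eq_natAbs]
    rfl
  rw [h3] at h1 h2
  linarith

end Run7.h799.TK
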