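import Pool.Agent.Run7.h608.TK.Iface

/-! Piece PZ of project TK (helper608): Paley-Zygmund for the slopes. -/

set_option autoImplicit false

open R109.GT

namespace Run7.h799.TK

open Run7.h608.TK

theorem sum_ico_int (N : ℕ) (F : ℤ → ℤ) :
    ∑ j ∈ Finset.Ico (0:ℤ) N, F j = ∑ k ∈ Finset.range N, F k := by
  have h : Finset.Ico (0:ℤ) N = (Finset.range N).image (fun k : ℕ => (k : ℤ)) := by
    ext x
    simp only [Finset.mem_Ico, Finset.mem_image, Finset.mem_range]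
    constructor
    · rintro ⟨h1, h2⟩
      exact ⟨x.toNat, by omega, by omega⟩
    · rintro ⟨k, h1, rfl⟩
      omega
  rw [h, Finset.sum_image]
  intro a _ b _ hab
  exact Int.ofNat.inj hab

theorem sum_range_two (N : ℕ) (F : ℤ → ℤ) :
    ∑ k ∈ Finset.range (2 * N), F k =
      ∑ k ∈ Finset.range N, (F (2 * (k : ℤ)) + F (2 * (k : ℤ) + 1)) := by
  induction N with
  | zero => simp
  | succ N ih =>
    have : 2 * (N + 1) = 2 * N + 1 + 1 := by ring
    rw [this, Finset.sum_range_succ, Finset.sum_range_succ, ih, Finset.sum_range_succ]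
    push_cast
    ring

theorem sum_ivs_succ (n : ℕ) (F : ℤ → ℤ) :
    ∑ j ∈ ivs (n + 1), F j = ∑ i ∈ ivs n, (F (2 * i) + F (2 * i + 1)) := by
  unfold ivs
  have h1 : ((2:ℤ) ^ (n + 1)) = ((2 * 2 ^ n : ℕ) : ℤ) := by
    push_cast
    ring
  have h2 : ((2:ℤ) ^ n) = ((2 ^ n : ℕ) : ℤ) := by push_cast; rfl
  rw [h1, h2, sum_ico_int, sum_range_two, sum_ico_int]

theorem slope_even (w : ℕ → ℤ → ℤ) (n : ℕ) (i : ℤ) :
    slope w (n + 1) (2 * i) = slope w n i + w n i := by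
  show slope w n (2 * i / 2) + w n (2 * i / 2) * (if (2 * i) % 2 = 0 then 1 else -1) = _
  have h1 : 2 * i / 2 = i := by omega
  have h2 : (2 * i) % 2 = 0 := by omega
  rw [h1, if_pos h2, mul_one]

theorem slope_odd (w : ℕ → ℤ → ℤ) (n : ℕ) (i : ℤ) :
    slope w (n + 1) (2 * i + 1) = slope w n i - w n i := by
  show slope w n ((2 * i + 1) / 2) + w n ((2 * i + 1) / 2) *
    (if (2 * i + 1) % 2 = 0 then 1 else -1) = _
  have h1 : (2 * i + 1) / 2 = i := by omega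
  have h2 : (2 * i + 1) % 2 ≠ 0 := by omega
  rw [h1, if_neg h2]
  ring

theorem card_ivs (n : ℕ) : (ivs n).card = 2 ^ n := by
  unfold ivs
  rw [Int.card_Ico, sub_zero]
  have h2 : ((2:ℤ) ^ n) = ((2 ^ n : ℕ) : ℤ) := by push_cast; rfl
  rw [h2, Int.toNat_natCast]

theorem sum2 (w : ℕ → ℤ → ℤ) (hw : Sgn w) (n : ℕ) :
    ∑ i ∈ ivs n, (slope w n i) ^ 2 = n * 2 ^ n := by
  induction n with
  | zero =>
    simp [ivs, R109.GT.slope]
  | succ n ih =>
    rw [sum_ivs_succ]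
    have h : ∀ i ∈ ivs n, (slope w (n + 1) (2 * i)) ^ 2 + (slope w (n + 1) (2 * i + 1)) ^ 2 =
        2 * (slope w n i) ^ 2 + 2 := by
      intro i _
      rw [slope_even, slope_odd]
      rcases hw n i with h | h <;> rw [h] <;> ring
    rw [Finset.sum_congr rfl h, Finset.sum_add_distrib, ← Finset.mul_sum, ih, Finset.sum_const,
      card_ivs]
    simp only [nsmul_eq_mul]
    push_cast
    ring

theorem sum4 (w : ℕ → ℤ → ℤ) (hw : Sgn w) (n : ℕ) :
    ∑ i ∈ ivs n, (slope w n i) ^ 4 = (3 * (n:ℤ) ^ 2 - 2 * n) * 2 ^ n := by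
  induction n with
  | zero =>
    simp [ivs, R109.GT.slope]
  | succ n ih =>
    rw [sum_ivs_succ]
    have h : ∀ i ∈ ivs n, (slope w (n + 1) (2 * i)) ^ 4 + (slope w (n + 1) (2 * i + 1)) ^ 4 =
        2 * (slope w n i) ^ 4 + (12 * (slope w n i) ^ 2 + 2) := by
      intro i _
      rw [slope_even, slope_odd]
      rcases hw n i with h | h <;> rw [h] <;> ring
    rw [Finset.sum_congr rfl h, Finset.sum_add_distrib, Finset.sum_add_distrib, ← Finset.mul_sum,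
      ← Finset.mul_sum, ih, sum2 w hw, Finset.sum_const, card_ivs]
    simp only [nsmul_eq_mul]
    push_cast
    ring

theorem t_PZ : S_PZ := by
  intro w hw n hn
  set F := (ivs n).filter (fun i => (n:ℤ) ≤ 4 * (slope w n i) ^ 2) with hF
  have h1 : 3 * (n:ℤ) * 2 ^ n ≤ 4 * ∑ i ∈ F, (slope w n i) ^ 2 := by
    have e1 : ∑ i ∈ F, (slope w n i) ^ 2 +
        ∑ i ∈ (ivs n).filter (fun i => ¬ (n:ℤ) ≤ 4 * (slope w n i) ^ 2), (slope w n i) ^ 2 =
        n * 2 ^ n := by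
      rw [hF, Finset.sum_filter_add_sum_filter_not, sum2 w hw]
    have e2 : 4 * ∑ i ∈ (ivs n).filter (fun i => ¬ (n:ℤ) ≤ 4 * (slope w n i) ^ 2),
        (slope w n i) ^ 2 ≤ n * 2 ^ n := by
      rw [Finset.mul_sum]
      calc ∑ i ∈ (ivs n).filter (fun i => ¬ (n:ℤ) ≤ 4 * (slope w n i) ^ 2),
          4 * (slope w n i) ^ 2 ≤
          ∑ i ∈ (ivs n).filter (fun i => ¬ (n:ℤ) ≤ 4 * (slope w n i) ^ 2), (n:ℤ) := by
            refine Finset.sum_le_sum (fun i hi => ?_)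
            have := (Finset.mem_filter.1 hi).2
            omega
        _ ≤ ∑ i ∈ ivs n, (n:ℤ) :=
            Finset.sum_le_sum_of_subset_of_nonneg (Finset.filter_subset _ _)
              (fun i _ _ => by positivity)
        _ = n * 2 ^ n := by
            rw [Finset.sum_const, card_ivs, nsmul_eq_mul]
            push_cast
            ring
    linarith
  have h2 : (∑ i ∈ F, (slope w n i) ^ 2) ^ 2 ≤ (F.card : ℤ) * (3 * (n:ℤ) ^ 2 * 2 ^ n) := by
    have e1 : (∑ i ∈ F, (slope w n i) ^ 2) ^ 2 ≤ (F.card : ℤ) * ∑ i ∈ F, ((slope w n i) ^ 2) ^ 2 :=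
      sq_sum_le_card_mul_sum_sq
    have e2 : ∑ i ∈ F, ((slope w n i) ^ 2) ^ 2 ≤ 3 * (n:ℤ) ^ 2 * 2 ^ n := by
      calc ∑ i ∈ F, ((slope w n i) ^ 2) ^ 2 ≤ ∑ i ∈ ivs n, ((slope w n i) ^ 2) ^ 2 :=
            Finset.sum_le_sum_of_subset_of_nonneg (Finset.filter_subset _ _)
              (fun i _ _ => by positivity)
        _ = ∑ i ∈ ivs n, (slope w n i) ^ 4 := Finset.sum_congr rfl (fun i _ => by ring)
        _ = (3 * (n:ℤ) ^ 2 - 2 * n) * 2 ^ n := sum4 w hw n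
        _ ≤ 3 * (n:ℤ) ^ 2 * 2 ^ n := by
            refine mul_le_mul_of_nonneg_right ?_ (by positivity)
            have : (0:ℤ) ≤ n := by positivity
            linarith
    exact e1.trans (mul_le_mul_of_nonneg_left e2 (by positivity))
  have hn' : (1:ℤ) ≤ n := by exact_mod_cast hn
  have hp : (0:ℤ) < 2 ^ n := by positivity
  have h3 : (3 * (n:ℤ) * 2 ^ n) ^ 2 ≤ (4 * ∑ i ∈ F, (slope w n i) ^ 2) ^ 2 :=
    pow_le_pow_left₀ (by positivity) h1 2
  have h4 : (3 * (n:ℤ) ^ 2 * 2 ^ n) * (3 * 2 ^ n) ≤ (3 * (n:ℤ) ^ 2 * 2 ^ n) * (16 * (F.card : ℤ)) := by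
    nlinarith
  have h5 : (3:ℤ) * 2 ^ n ≤ 16 * (F.card : ℤ) := by
    refine le_of_mul_le_mul_left h4 ?_
    positivity
  exact_mod_cast h5

end Run7.h799.TK
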